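import Pool.Agent.H32.RQ.Targets

/-!
# Pairs of quadratic forms, row KPB: bounds of the function `kap`
-/

set_option autoImplicit false

namespace Pool.Agent.H37.RQ

open Finset Pool.Agent.H32.RQ

theorem vma_le (Q : ℕ) [NeZero Q] (n : ℤ) : |(n : ZMod Q).valMinAbs| ≤ |n| := by
  have h1 := ZMod.natAbs_min_of_le_div_two Q ((n : ZMod Q).valMinAbs) n
    (ZMod.coe_valMinAbs _) (ZMod.natAbs_valMinAbs_le _)
  rw [Int.abs_eq_natAbs, Int.abs_eq_natAbs]
  exact_mod_cast h1

theorem tri_ne {Q J : ℕ} [NeZero Q] (hJ : 1 ≤ J) {x : ZMod Q} (h : tri Q J x ≠ 0) :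
    |x.valMinAbs| < (J : ℤ) := by
  by_contra hc
  push Not at hc
  apply h
  unfold tri
  refine max_eq_left ?_
  have hJ0 : (0 : ℝ) < J := by exact_mod_cast hJ
  have h1 : (J : ℝ) ≤ |((x.valMinAbs : ℤ) : ℝ)| := by
    rw [← Int.cast_abs]
    exact_mod_cast hc
  rw [sub_nonpos, le_div_iff₀ hJ0]
  linarith

theorem pf_KPB (hFJB : T_FJB) : T_KPB := by
  intro Q W T _ hW hWQ hTQ hWT
  have hQ : 0 < Q := Nat.pos_of_ne_zero (NeZero.ne Q)
  have hT : 0 < T := by omega
  obtain ⟨J, hJ⟩ := hTQ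
  obtain ⟨h, hh⟩ := hWQ
  have hJT : Q / T = J := by rw [hJ, Nat.mul_div_cancel_left _ hT]
  have hhW : Q / W = h := by
    conv_lhs => rw [hh]
    rw [Nat.mul_div_cancel_left _ hW]
  have hJ1 : 1 ≤ J := by
    rcases Nat.eq_zero_or_pos J with h0 | h0
    · rw [h0, mul_zero] at hJ
      omega
    · exact h0
  have hJh : 2 * J ≤ h := by
    have h1 : W * (2 * J) ≤ W * h := by
      rw [← hh, hJ]
      calc W * (2 * J) = 2 * W * J := by ring
        _ ≤ T * J := Nat.mul_le_mul_right _ hWT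
    exact Nat.le_of_mul_le_mul_left h1 hW
  obtain ⟨-, htri, -⟩ := hFJB Q J hJ1
  unfold kap
  rw [hJT, hhW]
  have huniq : ∀ (j : ZMod Q) (a a' : ℕ), a < W → a' < W →
      tri Q J (j - ((a * h : ℕ) : ZMod Q)) ≠ 0 → tri Q J (j - ((a' * h : ℕ) : ZMod Q)) ≠ 0 →
      a = a' := by
    intro j a a' ha ha' h1 h2
    have h3 := tri_ne hJ1 h1
    have h4 := tri_ne hJ1 h2
    obtain ⟨u, hu⟩ : ∃ u : ℤ, u = (j - ((a * h : ℕ) : ZMod Q)).valMinAbs := ⟨_, rfl⟩
    obtain ⟨u', hu'⟩ : ∃ u' : ℤ, u' = (j - ((a' * h : ℕ) : ZMod Q)).valMinAbs := ⟨_, rfl⟩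
    have h5 : (u : ZMod Q) = j - ((a * h : ℕ) : ZMod Q) := by rw [hu, ZMod.coe_valMinAbs]
    have h6 : (u' : ZMod Q) = j - ((a' * h : ℕ) : ZMod Q) := by rw [hu', ZMod.coe_valMinAbs]
    rw [← hu, abs_lt] at h3
    rw [← hu', abs_lt] at h4
    have h7 : ((u - u' + (a * h : ℕ) - (a' * h : ℕ) : ℤ) : ZMod Q) = 0 := by
      push_cast
      push_cast at h5 h6
      rw [h5, h6]
      ring
    rw [ZMod.intCast_zmod_eq_zero_iff_dvd] at h7
    obtain ⟨q, hq⟩ := h7
    push_cast at hq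
    have hhQ : (Q : ℤ) = W * h := by exact_mod_cast hh
    have hJh' : 2 * (J : ℤ) ≤ h := by exact_mod_cast hJh
    have hh0 : (0 : ℤ) < h := by
      have : (1 : ℤ) ≤ J := by exact_mod_cast hJ1
      linarith
    have h8 : u - u' = ((W : ℤ) * q + a' - a) * h := by
      rw [hhQ] at hq
      linarith
    have h9 : (W : ℤ) * q + a' - a = 0 := by
      by_contra hne
      have h10 : (h : ℤ) ≤ |((W : ℤ) * q + a' - a) * h| := by
        rw [abs_mul, abs_of_pos hh0]
        have : 1 ≤ |(W : ℤ) * q + a' - a| := Int.one_le_abs hne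
        nlinarith
      have h11 : |u - u'| < h := by
        rw [abs_lt]
        constructor <;> linarith [h3.1, h3.2, h4.1, h4.2]
      rw [← h8] at h10
      linarith
    have h12 : q = 0 := by
      by_contra hne
      have h13 : (W : ℤ) ≤ |(W : ℤ) * q| := by
        have hW0 : (0 : ℤ) < W := by exact_mod_cast hW
        rw [abs_mul, abs_of_pos hW0]
        have : 1 ≤ |q| := Int.one_le_abs hne
        nlinarith
      have h14 : (W : ℤ) * q = a - a' := by linarith
      have ha1 : (a : ℤ) < W := by exact_mod_cast ha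
      have ha2 : (a' : ℤ) < W := by exact_mod_cast ha'
      have h15 : |(a : ℤ) - a'| < W := by
        rw [abs_lt]
        constructor <;> omega
      rw [h14] at h13
      linarith
    rw [h12, mul_zero] at h9
    omega
  refine ⟨fun j => ⟨Finset.sum_nonneg fun a _ => (htri _).1, ?_⟩, fun a n j hj => ?_⟩
  · by_cases hz : ∃ a ∈ range W, tri Q J (j - ((a * h : ℕ) : ZMod Q)) ≠ 0
    · obtain ⟨a, ha, hne⟩ := hz
      rw [Finset.sum_eq_single_of_mem a ha]
      · exact (htri _).2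
      · intro b hb hba
        by_contra hc
        exact hba (huniq j b a (mem_range.1 hb) (mem_range.1 ha) hc hne)
    · push Not at hz
      rw [Finset.sum_eq_zero hz]
      exact zero_le_one
  · have hW0 : (0 : ℤ) < W := by exact_mod_cast hW
    obtain ⟨a', ha'⟩ : ∃ a' : ℕ, (a' : ℤ) = a % W :=
      ⟨(a % W).toNat, Int.toNat_of_nonneg (Int.emod_nonneg _ hW0.ne')⟩
    have ha'W : a' < W := by
      have := Int.emod_lt_of_pos a hW0
      rw [← ha'] at this
      exact_mod_cast this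
    have h1 : tri Q J (j - ((a' * h : ℕ) : ZMod Q)) ≤
        ∑ a ∈ range W, tri Q J (j - ((a * h : ℕ) : ZMod Q)) :=
      Finset.single_le_sum (f := fun a : ℕ => tri Q J (j - ((a * h : ℕ) : ZMod Q)))
        (fun a _ => (htri _).1) (mem_range.2 ha'W)
    refine le_trans ?_ h1
    have h2 : j - ((a' * h : ℕ) : ZMod Q) = (n : ZMod Q) := by
      have h3 : ((n + a * (h : ℤ) - (a' * h : ℕ) - n : ℤ) : ZMod Q) = 0 := by
        rw [ZMod.intCast_zmod_eq_zero_iff_dvd]
        refine ⟨a / W, ?_⟩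
        have h4 := Int.emod_add_mul_ediv a W
        have hhQ : (Q : ℤ) = W * h := by exact_mod_cast hh
        push_cast
        rw [hhQ, ha']
        have h5 : a - a % W = W * (a / W) := by linarith
        calc n + a * (h : ℤ) - a % W * h - n = (a - a % W) * h := by ring
          _ = W * h * (a / W) := by rw [h5]; ring
      rw [hj, ← sub_eq_zero]
      push_cast at h3 ⊢
      exact h3
    rw [h2]
    unfold tri
    refine le_trans ?_ (le_max_right _ _)
    have hJ0 : (0 : ℝ) < J := by exact_mod_cast hJ1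
    have hT0 : (0 : ℝ) < T := by exact_mod_cast hT
    have h3 : |(n : ℝ)| * T / Q = |(n : ℝ)| / J := by
      have h4 : (Q : ℝ) = T * J := by exact_mod_cast hJ
      rw [h4]
      field_simp
    rw [h3]
    have h5 : |(((n : ZMod Q).valMinAbs : ℤ) : ℝ)| ≤ |(n : ℝ)| := by
      rw [← Int.cast_abs, ← Int.cast_abs]
      exact_mod_cast vma_le Q n
    have h6 : |(((n : ZMod Q).valMinAbs : ℤ) : ℝ)| / J ≤ |(n : ℝ)| / J :=
      div_le_div_of_nonneg_right h5 hJ0.le
    linarith

end Pool.Agent.H37.RQ
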