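import Pool.Agent.H32.RQ.Smooth

/-!
# Pairs of quadratic forms: row SZL
-/

set_option autoImplicit false

open Finset Pool.Agent.H32.RQ

namespace Pool.Agent.H37.RQ

open Classical in
theorem pf_SZL : T_SZL := by
  intro s P hP ε hε
  set D : ℕ := (MvPolynomial.rename (Fintype.equivFin (Fin 2 × Mon s)) P).totalDegree with hD
  refine ⟨⌈(D : ℝ) / ε⌉₊, fun A hA => ?_⟩
  set e := Fintype.equivFin (Fin 2 × Mon s) with he
  set Q := MvPolynomial.rename e P with hQ
  have hQ0 : Q ≠ 0 := by
    intro h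
    apply hP
    apply MvPolynomial.rename_injective e e.injective
    rw [← hQ, h, map_zero]
  have hn : Fintype.card (Fin 2 × Mon s) = 2 * md s := by
    rw [Fintype.card_prod, Fintype.card_fin]
  have hS : (Finset.Icc (-(A : ℤ)) A).card = 2 * A + 1 := by
    rw [Int.card_Icc]
    omega
  have h1 := MvPolynomial.schwartz_zippel_totalDegree hQ0 (Finset.Icc (-(A : ℤ)) A)
  have h2 : ((bx s A).filter fun c =>
      MvPolynomial.eval (fun q : Fin 2 × Mon s => c q.1 q.2) P = 0).card ≤
      ((Fintype.piFinset fun _ : Fin (Fintype.card (Fin 2 × Mon s)) =>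
        Finset.Icc (-(A : ℤ)) A).filter fun f => MvPolynomial.eval f Q = 0).card := by
    apply Finset.card_le_card_of_injOn
      (fun c : Fin 2 → Mon s → ℤ => fun i => c (e.symm i).1 (e.symm i).2)
    · intro c hc
      have hc' := Finset.mem_filter.mp (Finset.mem_coe.mp hc)
      apply Finset.mem_coe.mpr
      rw [Finset.mem_filter]
      refine ⟨?_, ?_⟩
      · rw [Fintype.mem_piFinset]
        intro i
        have h3 := hc'.1
        unfold bx at h3
        rw [Fintype.mem_piFinset] at h3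
        have h4 := h3 (e.symm i).1
        rw [Fintype.mem_piFinset] at h4
        exact h4 (e.symm i).2
      · rw [hQ, MvPolynomial.eval_rename]
        have h5 : ((fun i => c (e.symm i).1 (e.symm i).2) ∘ e) =
            (fun q : Fin 2 × Mon s => c q.1 q.2) := by
          funext q
          simp
        rw [h5]
        exact hc'.2
    · intro c _ c' _ h
      funext i p
      have h6 := congrFun h (e (i, p))
      simpa using h6
  rw [hS] at h1
  have h7 : (((Fintype.piFinset fun _ : Fin (Fintype.card (Fin 2 × Mon s)) =>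
        Finset.Icc (-(A : ℤ)) A).filter fun f => MvPolynomial.eval f Q = 0).card : ℝ) /
        (((2 * A + 1 : ℕ) : ℝ) ^ (Fintype.card (Fin 2 × Mon s))) ≤
        (D : ℝ) / ((2 * A + 1 : ℕ) : ℝ) := by
    have h1' := (NNRat.cast_le (K := ℝ)).mpr h1
    push_cast at h1'
    push_cast
    exact h1'
  have hpow : ((2 * A + 1 : ℕ) : ℝ) ^ (Fintype.card (Fin 2 × Mon s)) =
      ((2 * A + 1 : ℕ) : ℝ) ^ (2 * md s) := by rw [hn]
  rw [hpow] at h7
  have hM : (0 : ℝ) < ((2 * A + 1 : ℕ) : ℝ) := by
    exact_mod_cast Nat.succ_pos _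
  have hMp : (0 : ℝ) < ((2 * A + 1 : ℕ) : ℝ) ^ (2 * md s) := pow_pos hM _
  have h8 : (D : ℝ) / ((2 * A + 1 : ℕ) : ℝ) ≤ ε := by
    rw [div_le_iff₀ hM]
    have h9 : (D : ℝ) / ε ≤ (A : ℝ) := le_trans (Nat.le_ceil _) (by exact_mod_cast hA)
    rw [div_le_iff₀ hε] at h9
    have h10 : (A : ℝ) ≤ ((2 * A + 1 : ℕ) : ℝ) := by
      push_cast
      have : (0 : ℝ) ≤ (A : ℝ) := Nat.cast_nonneg A
      linarith
    nlinarith
  have h11 := le_trans h7 h8
  rw [div_le_iff₀ hMp] at h11
  have h12 : (((bx s A).filter fun c =>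
      MvPolynomial.eval (fun q : Fin 2 × Mon s => c q.1 q.2) P = 0).card : ℝ) ≤
      (((Fintype.piFinset fun _ : Fin (Fintype.card (Fin 2 × Mon s)) =>
        Finset.Icc (-(A : ℤ)) A).filter fun f => MvPolynomial.eval f Q = 0).card : ℝ) := by
    exact_mod_cast h2
  refine le_trans h12 (le_trans h11 (le_of_eq ?_))
  push_cast
  ring

end Pool.Agent.H37.RQ
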